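import Pool.Agent.H54.Slow

/-!
Construction of the planar sets: generic projections of the lattice points of a cube that lie on
a popular sphere.
-/

set_option autoImplicit false

open MvPolynomial
open scoped Pointwise

namespace Pool.Agent.H54

/-- A sphere centred at the origin containing many points of the cube `{0, ..., k - 1} ^ D`. -/
theorem exists_sphere (k D : ℕ) : ∃ (B : Finset (Fin D → ℝ)) (R : ℝ),
    (∀ x ∈ B, ∑ i, x i ^ 2 = R) ∧ (∀ x ∈ B, ∀ i, ∃ a < k, x i = (a : ℕ)) ∧
    k ^ D ≤ B.card * (D * k ^ 2 + 1) := by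
  classical
  let box : Finset (Fin D → ℕ) := Fintype.piFinset fun _ => Finset.range k
  let f : (Fin D → ℕ) → ℕ := fun x => ∑ i, x i ^ 2
  have hbox : box.card = k ^ D := by simp [box]
  have hf : ∀ x ∈ box, f x ∈ Finset.range (D * k ^ 2 + 1) := by
    intro x hx
    rw [Finset.mem_range, Nat.lt_succ_iff]
    have h1 : ∀ i ∈ Finset.univ, x i ^ 2 ≤ k ^ 2 := by
      intro i _
      have h2 := Fintype.mem_piFinset.mp hx i
      rw [Finset.mem_range] at h2
      exact Nat.pow_le_pow_left h2.le 2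
    have h3 := Finset.sum_le_card_nsmul _ _ _ h1
    simpa using h3
  obtain ⟨R, _, hR⟩ := Finset.exists_max_image (Finset.range (D * k ^ 2 + 1))
    (fun R => (box.filter fun x => f x = R).card) ⟨0, by simp⟩
  have hsum := Finset.card_eq_sum_card_fiberwise hf
  have hle : box.card ≤ (D * k ^ 2 + 1) * (box.filter fun x => f x = R).card := by
    rw [hsum]
    refine (Finset.sum_le_card_nsmul _ _ _ hR).trans ?_
    simp
  let c : (Fin D → ℕ) → (Fin D → ℝ) := fun x i => (x i : ℝ)
  have hc : Function.Injective c := by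
    intro x y h
    funext i
    exact Nat.cast_injective (congrFun h i)
  refine ⟨(box.filter fun x => f x = R).image c, (R : ℝ), ?_, ?_, ?_⟩
  · intro x hx
    obtain ⟨y, hy, rfl⟩ := Finset.mem_image.mp hx
    have h1 := (Finset.mem_filter.mp hy).2
    rw [← h1]
    simp [f, c]
  · intro x hx i
    obtain ⟨y, hy, rfl⟩ := Finset.mem_image.mp hx
    have h1 := Fintype.mem_piFinset.mp (Finset.mem_filter.mp hy).1 i
    exact ⟨y i, Finset.mem_range.mp h1, rfl⟩
  · rw [Finset.card_image_of_injective _ hc, ← hbox, mul_comm]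
    exact hle

/-- real zero set in the plane -/
def zeroSet (Q : MvPolynomial (Fin 2) ℝ) : Set (ℝ × ℝ) :=
  {p | MvPolynomial.eval ![p.1, p.2] Q = 0}

theorem good_of_good (Q : MvPolynomial (Fin 2) ℝ)
    (h : (zeroSet Q).Finite ∨ ¬ Bornology.IsBounded (zeroSet Q)) :
    {z : Fin 2 → ℝ | eval z Q = 0}.Finite ∨
      ¬ ∃ b : ℝ, ∀ z : Fin 2 → ℝ, eval z Q = 0 → ∀ l, z l ^ 2 ≤ b := by
  have hz : ∀ z : Fin 2 → ℝ, ![z 0, z 1] = z := by
    intro z
    funext l
    fin_cases l <;> rfl
  rcases h with h | h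
  · left
    refine (h.image (fun p : ℝ × ℝ => (![p.1, p.2] : Fin 2 → ℝ))).subset ?_
    intro z hz0
    refine ⟨(z 0, z 1), ?_, hz z⟩
    show MvPolynomial.eval ![z 0, z 1] Q = 0
    rw [hz]
    exact hz0
  · right
    rintro ⟨b, hb⟩
    apply h
    refine Metric.isBounded_closedBall.subset (?_ : zeroSet Q ⊆ Metric.closedBall 0 (Real.sqrt b))
    intro p hp
    rw [mem_closedBall_zero_iff, Prod.norm_def]
    have h0 := hb _ hp 0
    have h1 := hb _ hp 1
    simp only [Matrix.cons_val_zero, Matrix.cons_val_one] at h0 h1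
    refine max_le ?_ ?_
    · exact Real.abs_le_sqrt h0
    · exact Real.abs_le_sqrt h1

/-- One finite set of the construction. -/
theorem exists_set (k D : ℕ) (hk : 1 ≤ k) : ∃ A : Finset (ℝ × ℝ),
    k ^ D ≤ A.card * (D * k ^ 2 + 1) ∧ (A + A).card ≤ (2 * k) ^ D ∧
    (∀ P : MvPolynomial (Fin 2) ℝ, P ≠ 0 →
      {p : ℝ × ℝ | p ∈ A ∧ p ∈ zeroSet P ∧ ∀ Q, Irreducible Q → Q ∣ P → p ∈ zeroSet Q →
        (zeroSet Q).Finite ∨ ¬ Bornology.IsBounded (zeroSet Q)}.ncard ≤ 2 * P.totalDegree ^ 2) ∧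
    (∀ d ≤ A.card, ∀ P : MvPolynomial (Fin 2) ℝ, P ≠ 0 → P.totalDegree ≤ d →
      {p : ℝ × ℝ | p ∈ A ∧ p ∈ zeroSet P}.ncard ≤ k ^ ((d + 1) * (d + 2) / 2)) := by
  classical
  obtain ⟨B, R, hR, hBk, hBcard⟩ := exists_sphere k D
  obtain ⟨M, hinj, hgen⟩ := exists_generic B B.card
  let π : (Fin D → ℝ) → ℝ × ℝ := fun x => (pt M x 0, pt M x 1)
  have hπ : ∀ x, ![(π x).1, (π x).2] = pt M x := by
    intro x
    funext l
    fin_cases l <;> rfl
  have hπinj : Set.InjOn π (B : Set (Fin D → ℝ)) := by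
    intro x hx y hy h
    apply hinj x hx y hy
    rw [← hπ, ← hπ, h]
  have hAcard : (B.image π).card = B.card := Finset.card_image_of_injOn hπinj
  have hncard : ∀ p : ℝ × ℝ → Prop, ∃ X ⊆ B, (∀ x ∈ X, p (π x)) ∧
      {q : ℝ × ℝ | q ∈ B.image π ∧ p q}.ncard = X.card := by
    intro p
    refine ⟨B.filter fun x => p (π x), Finset.filter_subset _ _,
      fun x hx => (Finset.mem_filter.mp hx).2, ?_⟩
    have h1 : {q : ℝ × ℝ | q ∈ B.image π ∧ p q} = ((B.filter fun x => p (π x)).image π : Finset _) := by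
      ext q
      simp only [Finset.mem_image, Set.mem_ofPred_eq, Finset.coe_image, Finset.coe_filter,
        Set.mem_image]
      constructor
      · rintro ⟨⟨x, hx, rfl⟩, hp⟩
        exact ⟨x, ⟨hx, hp⟩, rfl⟩
      · rintro ⟨x, ⟨hx, hp⟩, rfl⟩
        exact ⟨⟨x, hx, rfl⟩, hp⟩
    rw [h1, Set.ncard_coe_finset, Finset.card_image_of_injOn]
    exact hπinj.mono (by
      intro x hx
      exact (Finset.mem_filter.mp hx).1)
  refine ⟨B.image π, ?_, ?_, ?_, ?_⟩
  · rw [hAcard]
    exact hBcard
  · let g : (Fin D → ℕ) → ℝ × ℝ := fun x => π (fun i => (x i : ℝ))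
    have hsub : B.image π + B.image π ⊆
        (Fintype.piFinset fun _ : Fin D => Finset.range (2 * k)).image g := by
      intro q hq
      obtain ⟨a, ha, b, hb, rfl⟩ := Finset.mem_add.mp hq
      obtain ⟨x, hx, rfl⟩ := Finset.mem_image.mp ha
      obtain ⟨y, hy, rfl⟩ := Finset.mem_image.mp hb
      choose u hu1 hu2 using hBk x hx
      choose v hv1 hv2 using hBk y hy
      refine Finset.mem_image.mpr ⟨fun i => u i + v i, ?_, ?_⟩
      · rw [Fintype.mem_piFinset]
        intro i
        rw [Finset.mem_range]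
        have := hu1 i
        have := hv1 i
        omega
      · have hadd : ∀ l, pt M (fun i => ((u i + v i : ℕ) : ℝ)) l = pt M x l + pt M y l := by
          intro l
          simp only [pt, Algebra.algebraMap_self, RingHom.id_apply]
          rw [← Finset.sum_add_distrib]
          refine Finset.sum_congr rfl fun i _ => ?_
          rw [hu2 i, hv2 i]
          push_cast
          ring
        exact Prod.ext (hadd 0) (hadd 1)
    refine (Finset.card_le_card hsub).trans (Finset.card_image_le.trans ?_)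
    simp
  · intro P hP
    obtain ⟨X, hXB, hX, hXc⟩ := hncard (fun q => q ∈ zeroSet P ∧
        ∀ Q, Irreducible Q → Q ∣ P → q ∈ zeroSet Q →
        (zeroSet Q).Finite ∨ ¬ Bornology.IsBounded (zeroSet Q))
    rw [hXc]
    apply card_le_general B M R hR hinj hgen P hP _ hXB
    intro x hx
    obtain ⟨hx1, hx2⟩ := hX x hx
    have hx1' : eval (pt M x) P = 0 := by
      have h := hx1
      unfold zeroSet at h
      rw [Set.mem_ofPred_eq, hπ] at h
      exact h
    refine ⟨hx1', fun Q hQ hQP hQx => good_of_good Q (hx2 Q hQ hQP ?_)⟩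
    unfold zeroSet
    rw [Set.mem_ofPred_eq, hπ]
    exact hQx
  · intro d hd P hP hPd
    rw [hAcard] at hd
    obtain ⟨X, hXB, hX0, hXc⟩ := hncard (fun q => q ∈ zeroSet P)
    rw [hXc]
    have hX : ∀ x ∈ X, eval (pt M x) P = 0 := by
      intro x hx
      have h := hX0 x hx
      unfold zeroSet at h
      rw [Set.mem_ofPred_eq, hπ] at h
      exact h
    have h1 := finrank_span_lt B B.card M hgen d hd P hP hPd X hXB hX
    have hSc : ((Finset.range k).image (fun a : ℕ => (a : ℝ))).card = k := by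
      rw [Finset.card_image_of_injective _ Nat.cast_injective, Finset.card_range]
    have h2 := card_le_pow X
      ((Finset.range k).image (fun a : ℕ => (a : ℝ))) (by rw [hSc]; exact hk)
      (by
        intro x hx i
        obtain ⟨a, ha, hxa⟩ := hBk x (hXB hx) i
        rw [hxa]
        exact Finset.mem_image_of_mem _ (Finset.mem_range.mpr ha)) _ h1.le
    rw [hSc] at h2
    exact h2

end Pool.Agent.H54
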