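import Pool.Agent.H54.Gram

/-!
The lifting argument: a plane curve containing many generic images of points of a sphere is
bounded.
-/

set_option autoImplicit false

open MvPolynomial

namespace Pool.Agent.H54

/-- divide out the highest common power of `T` -/
theorem exists_primitive {ι : Type*} [Fintype ι] (v : ι → Polynomial ℝ) (hv : v ≠ 0) :
    ∃ (k : ℕ) (w : ι → Polynomial ℝ), (∀ i, v i = Polynomial.X ^ k * w i) ∧
      ∃ i, (w i).coeff 0 ≠ 0 := by
  classical
  suffices h : ∀ (N : ℕ) (v : ι → Polynomial ℝ), v ≠ 0 → (∑ i, (v i).natDegree) ≤ N →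
      ∃ (k : ℕ) (w : ι → Polynomial ℝ), (∀ i, v i = Polynomial.X ^ k * w i) ∧
      ∃ i, (w i).coeff 0 ≠ 0 from h _ v hv le_rfl
  intro N
  induction N with
  | zero =>
    intro v hv hN
    obtain ⟨i, hi⟩ := Function.ne_iff.mp hv
    refine ⟨0, v, by simp, i, ?_⟩
    have h1 : (v i).natDegree = 0 := by
      have := Finset.sum_eq_zero_iff.mp (Nat.le_zero.mp hN) i (Finset.mem_univ _)
      exact this
    rw [Polynomial.eq_C_of_natDegree_eq_zero h1] at hi
    intro h0
    apply hi
    simp [h0]
  | succ N ih =>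
    intro v hv hN
    by_cases hall : ∀ i, (v i).coeff 0 = 0
    · have h1 : ∀ i, ∃ w, v i = Polynomial.X * w := fun i => Polynomial.X_dvd_iff.mpr (hall i)
      choose w hw using h1
      have hw0 : w ≠ 0 := by
        rintro rfl
        apply hv
        funext i
        rw [hw i]
        simp
      obtain ⟨i, hi⟩ := Function.ne_iff.mp hw0
      have hlt : ∑ i, (w i).natDegree < ∑ i, (v i).natDegree := by
        apply Finset.sum_lt_sum
        · intro j _
          rw [hw j]
          by_cases hj : w j = 0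
          · simp [hj]
          · rw [Polynomial.natDegree_X_mul hj]
            omega
        · refine ⟨i, Finset.mem_univ _, ?_⟩
          rw [hw i, Polynomial.natDegree_X_mul hi]
          omega
      obtain ⟨k, w', hk, hi'⟩ := ih w hw0 (by omega)
      refine ⟨k + 1, w', ?_, hi'⟩
      intro i
      rw [hw i, hk i]
      ring
    · push Not at hall
      exact ⟨0, v, by simp, hall⟩

variable {n : Type*} [Fintype n] [DecidableEq n]

/-- The matrix `M + T * E_{j,i}` -/
noncomputable def pert (M : Fin 2 × n → ℝ) (j : Fin 2) (i : n) : Fin 2 × n → Polynomial ℝ :=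
  fun a => Polynomial.C (M a) + if a = (j, i) then Polynomial.X else 0

theorem pt_pert (M : Fin 2 × n → ℝ) (j : Fin 2) (i : n) (x : n → ℝ) (l : Fin 2) :
    pt (pert M j i) x l =
      Polynomial.C (pt M x l) + if l = j then Polynomial.C (x i) * Polynomial.X else 0 := by
  simp only [pt, pert, add_mul, Finset.sum_add_distrib, Algebra.algebraMap_self, RingHom.id_apply,
    map_sum, map_mul, Polynomial.algebraMap_eq]
  congr 1
  by_cases hl : l = j
  · subst hl
    rw [if_pos rfl, Finset.sum_eq_single i]
    · rw [if_pos rfl, mul_comm]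
    · intro b _ hb
      simp [hb]
    · simp
  · rw [if_neg hl]
    apply Finset.sum_eq_zero
    intro b _
    simp [hl]

/-- derivative at `0` of a monomial along the perturbation -/
theorem deriv_mon (M : Fin 2 × n → ℝ) (j : Fin 2) (i : n) (x : n → ℝ) (p : ℕ × ℕ)
    (v : Polynomial ℝ) :
    (Polynomial.derivative (v * mon p (pt (pert M j i) x))).eval 0 =
      (Polynomial.derivative v).eval 0 * mon p (pt M x) +
      x i * eval (pt M x) (pderiv j (C (v.coeff 0) * mon p MvPolynomial.X)) := by
  have h0 := pt_pert M j i x 0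
  have h1 := pt_pert M j i x 1
  simp only [mon]
  rw [h0, h1]
  fin_cases j
  · simp [Polynomial.derivative_mul, Polynomial.derivative_pow,
      Polynomial.coeff_zero_eq_eval_zero, pderiv_X]
    ring
  · simp [Polynomial.derivative_mul, Polynomial.derivative_pow,
      Polynomial.coeff_zero_eq_eval_zero, pderiv_X]
    ring

/-- The velocity of the points along the curve: if `P` vanishes on many generic images, then on
these images the coordinates of the points are `-Q / ∂_j P`. -/
theorem exists_velocity (B : Finset (n → ℝ)) (E : ℕ) (M : Fin 2 × n → ℝ)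
    (hinj : ∀ x ∈ B, ∀ y ∈ B, pt M x = pt M y → x = y)
    (hgen : ∀ e ≤ E, ∀ X ⊆ B, (gram e X M).det = 0 → psi e X = 0)
    (P : MvPolynomial (Fin 2) ℝ) (hP : Prime P) (hPE : P.totalDegree ≤ E)
    (X : Finset (n → ℝ)) (hX : X ⊆ B) (hPX : ∀ x ∈ X, eval (pt M x) P = 0)
    (hcard : P.totalDegree * P.totalDegree < X.card) (j : Fin 2) (i : n) :
    ∃ Q : MvPolynomial (Fin 2) ℝ, Q.totalDegree ≤ P.totalDegree ∧
      ∀ x ∈ X, eval (pt M x) Q + x i * eval (pt M x) (pderiv j P) = 0 := by
  classical
  set e := P.totalDegree with he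
  obtain ⟨c, hc⟩ := exists_poly e P le_rfl
  have hc0 : c ≠ 0 := by
    rintro rfl
    apply hP.ne_zero
    rw [hc]
    simp [poly]
  have hdet : (gram e X M).det = 0 := by
    apply det_eq_zero_of_exists
    refine ⟨c, hc0, fun x hx => ?_⟩
    rw [← eval_poly, ← hc]
    exact hPX x hx
  have hpsi := hgen e hPE X hX hdet
  have hdet2 : (gram e X (pert M j i)).det = 0 := by
    rw [← aeval_psi, hpsi, map_zero]
  obtain ⟨v, hv0, hv⟩ := exists_of_det_eq_zero (fun s f h => sqZero_poly s f h) e X _ hdet2
  obtain ⟨k, w, hw, hw0⟩ := exists_primitive v hv0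
  have hw2 : ∀ x ∈ X, ∑ p : exf e, w p * mon p.1 (pt (pert M j i) x) = 0 := by
    intro x hx
    have h := hv x hx
    simp only [hw, mul_assoc, ← Finset.mul_sum] at h
    exact (mul_eq_zero.mp h).resolve_left (pow_ne_zero _ Polynomial.X_ne_zero)
  let c1 : exf e → ℝ := fun p => (w p).coeff 0
  let c2 : exf e → ℝ := fun p => (Polynomial.derivative (w p)).eval 0
  have hpt0 : ∀ x : n → ℝ, (fun l => Polynomial.eval 0 (pt (pert M j i) x l)) = pt M x := by
    intro x
    funext l
    rw [pt_pert]
    split_ifs <;> simp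
  have h1 : ∀ x ∈ X, eval (pt M x) (poly e c1) = 0 := by
    intro x hx
    have h := congrArg (Polynomial.eval 0) (hw2 x hx)
    rw [Polynomial.eval_finsetSum, Polynomial.eval_zero] at h
    rw [eval_poly, ← h]
    refine Finset.sum_congr rfl fun p _ => ?_
    have h3 := map_mon (Polynomial.evalRingHom (0 : ℝ)) p.1 (pt (pert M j i) x)
    simp only [Polynomial.coe_evalRingHom] at h3
    rw [Polynomial.eval_mul, h3, hpt0, ← Polynomial.coeff_zero_eq_eval_zero]
  have h2 : ∀ x ∈ X, eval (pt M x) (poly e c2) + x i * eval (pt M x) (pderiv j (poly e c1)) = 0 := by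
    intro x hx
    have h := congrArg (fun q => Polynomial.eval 0 (Polynomial.derivative q)) (hw2 x hx)
    simp only [Polynomial.derivative_sum, Polynomial.eval_finsetSum, deriv_mon,
      Finset.sum_add_distrib, Polynomial.derivative_zero, Polynomial.eval_zero,
      ← Finset.mul_sum] at h
    rw [eval_poly, poly, map_sum, map_sum]
    exact h
  -- `poly e c1` is a multiple of `P`
  have hc1 : poly e c1 ≠ 0 := by
    apply poly_ne_zero
    obtain ⟨p, hp⟩ := hw0
    intro h
    exact hp (congrFun h p)
  have hdvd : P ∣ poly e c1 := by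
    by_contra hnd
    have h3 := bezout P (poly e c1) hP hnd e (totalDegree_poly e c1) (X.image (pt M))
      (by
        intro z hz
        obtain ⟨x, hx, rfl⟩ := Finset.mem_image.mp hz
        exact hPX x hx)
      (by
        intro z hz
        obtain ⟨x, hx, rfl⟩ := Finset.mem_image.mp hz
        exact h1 x hx)
    rw [Finset.card_image_of_injOn (fun x hx y hy h => hinj x (hX hx) y (hX hy) h), ← he] at h3
    omega
  obtain ⟨A, hA⟩ := hdvd
  have hA0 : A ≠ 0 := by
    rintro rfl
    exact hc1 (by rw [hA, mul_zero])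
  have hAdeg : A.totalDegree = 0 := by
    have h3 := totalDegree_poly e c1
    rw [hA, totalDegree_mul_of_isDomain hP.ne_zero hA0] at h3
    omega
  obtain ⟨a, ha⟩ : ∃ a : ℝ, A = C a := ⟨_, totalDegree_eq_zero_iff_eq_C.mp hAdeg⟩
  have ha0 : a ≠ 0 := by
    rintro rfl
    exact hA0 (by rw [ha, C_0])
  refine ⟨C a⁻¹ * poly e c2, ?_, ?_⟩
  · refine (totalDegree_mul _ _).trans ?_
    rw [totalDegree_C, zero_add]
    exact totalDegree_poly e c2
  · intro x hx
    have h3 := h2 x hx
    rw [hA, ha] at h3
    simp only [pderiv_mul, pderiv_C, mul_zero, add_zero, map_mul, eval_C] at h3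
    rw [map_mul, eval_C]
    have h4 : a⁻¹ * a = 1 := inv_mul_cancel₀ ha0
    calc a⁻¹ * eval (pt M x) (poly e c2) + x i * eval (pt M x) (pderiv j P)
        = a⁻¹ * (eval (pt M x) (poly e c2) + x i * (eval (pt M x) (pderiv j P) * a)) := by
          linear_combination (-(x i * eval (pt M x) (pderiv j P))) * h4
      _ = 0 := by rw [h3, mul_zero]

theorem totalDegree_pderiv_le {K : Type*} [Field K] (P : MvPolynomial (Fin 2) K) (j : Fin 2) :
    (pderiv j P).totalDegree ≤ P.totalDegree - 1 := by
  classical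
  rw [totalDegree, Finset.sup_le_iff]
  intro m hm
  have h1 : coeff m (pderiv j P) ≠ 0 := mem_support_iff.mp hm
  rw [coeff_pderiv] at h1
  have h2 : m + Finsupp.single j 1 ∈ P.support := by
    rw [mem_support_iff]
    intro h
    rw [h, zero_mul] at h1
    exact h1 rfl
  have h3 := le_totalDegree h2
  rw [Finsupp.sum_fintype _ _ (by simp)] at h3 ⊢
  simp only [Fin.sum_univ_two, Finsupp.add_apply] at h3 ⊢
  have h4 : (Finsupp.single j 1 : Fin 2 →₀ ℕ) 0 + (Finsupp.single j 1 : Fin 2 →₀ ℕ) 1 = 1 := by
    fin_cases j <;> simp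
  omega

/-- a plane polynomial with vanishing partial derivatives is constant -/
theorem exists_pderiv_ne_zero (P : MvPolynomial (Fin 2) ℝ) (hP : P.totalDegree ≠ 0) :
    ∃ j, pderiv j P ≠ 0 := by
  classical
  by_contra hcon
  push Not at hcon
  apply hP
  rw [totalDegree_eq_zero_iff_eq_C]
  ext m
  rw [coeff_C]
  split_ifs with h
  · rw [← h]
  · obtain ⟨j, hj⟩ : ∃ j, m j ≠ 0 := by
      by_contra hc
      push Not at hc
      exact h (Finsupp.ext fun j => (hc j).symm)
    have h1 : coeff (m - Finsupp.single j 1) (pderiv j P) = 0 := by rw [hcon j, coeff_zero]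
    rw [coeff_pderiv] at h1
    have h2 : m - Finsupp.single j 1 + Finsupp.single j 1 = m := by
      apply tsub_add_cancel_of_le
      rw [Finsupp.single_le_iff]
      omega
    rw [h2] at h1
    refine (mul_eq_zero.mp h1).resolve_right ?_
    positivity

/-- finitely many common zeros -/
theorem finite_common (P G : MvPolynomial (Fin 2) ℝ) (hP : Prime P) (hG : ¬ P ∣ G) :
    {z : Fin 2 → ℝ | eval z P = 0 ∧ eval z G = 0}.Finite := by
  by_contra hinf
  obtain ⟨t, ht1, ht2⟩ := Set.Infinite.exists_subset_card_eq hinf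
    (P.totalDegree * G.totalDegree + 1)
  have := bezout P G hP hG _ le_rfl t (fun z hz => (ht1 hz).1) (fun z hz => (ht1 hz).2)
  omega

/-- Main lemma: a prime plane polynomial of degree `e` vanishing at more than `2 e ^ 2` generic
images of points of a sphere has a bounded set of real zeros. -/
theorem bounded_of_many (B : Finset (n → ℝ)) (E : ℕ) (M : Fin 2 × n → ℝ) (R : ℝ)
    (hR : ∀ x ∈ B, ∑ i, x i ^ 2 = R)
    (hinj : ∀ x ∈ B, ∀ y ∈ B, pt M x = pt M y → x = y)
    (hgen : ∀ e ≤ E, ∀ X ⊆ B, (gram e X M).det = 0 → psi e X = 0)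
    (P : MvPolynomial (Fin 2) ℝ) (hP : Prime P) (hPE : P.totalDegree ≤ E)
    (X : Finset (n → ℝ)) (hX : X ⊆ B) (hPX : ∀ x ∈ X, eval (pt M x) P = 0)
    (hcard : 2 * P.totalDegree ^ 2 < X.card) :
    ∃ (j : Fin 2) (b : ℝ), ¬ P ∣ pderiv j P ∧
      ∀ z : Fin 2 → ℝ, eval z P = 0 → eval z (pderiv j P) ≠ 0 → ∀ l, z l ^ 2 ≤ b := by
  classical
  set e := P.totalDegree with he
  have hcard1 : e * e < X.card := by nlinarith [sq_nonneg e]
  have hcardim : (X.image (pt M)).card = X.card :=
    Finset.card_image_of_injOn (fun x hx y hy h => hinj x (hX hx) y (hX hy) h)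
  have hdeg : P.totalDegree ≠ 0 := by
    intro h0
    rw [totalDegree_eq_zero_iff_eq_C] at h0
    apply hP.not_isUnit
    rw [h0]
    apply IsUnit.map
    rw [isUnit_iff_ne_zero]
    intro h1
    apply hP.ne_zero
    rw [h0, h1, C_0]
  obtain ⟨j, hj⟩ := exists_pderiv_ne_zero P hdeg
  have hndvd : ¬ P ∣ pderiv j P := by
    rintro ⟨A, hA⟩
    have hA0 : A ≠ 0 := by
      rintro rfl
      exact hj (by rw [hA, mul_zero])
    have h1 := totalDegree_pderiv_le P j
    rw [hA, totalDegree_mul_of_isDomain hP.ne_zero hA0] at h1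
    omega
  choose Q hQ1 hQ2 using fun i => exists_velocity B E M hinj hgen P hP hPE X hX hPX
    (by rw [← he]; exact hcard1) j i
  -- divisibility from many zeros
  have key : ∀ G : MvPolynomial (Fin 2) ℝ, G.totalDegree ≤ 2 * e →
      (∀ x ∈ X, eval (pt M x) G = 0) → P ∣ G := by
    intro G hG hGX
    by_contra hnd
    have h3 := bezout P G hP hnd (2 * e) hG (X.image (pt M))
      (by
        intro z hz
        obtain ⟨x, hx, rfl⟩ := Finset.mem_image.mp hz
        exact hPX x hx)
      (by
        intro z hz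
        obtain ⟨x, hx, rfl⟩ := Finset.mem_image.mp hz
        exact hGX x hx)
    rw [hcardim, ← he] at h3
    nlinarith [h3, hcard]
  have hdj : (pderiv j P).totalDegree ≤ e - 1 := totalDegree_pderiv_le P j
  have hG1 : P ∣ ∑ i, Q i ^ 2 - C R * pderiv j P ^ 2 := by
    apply key
    · refine (totalDegree_sub _ _).trans (max_le ?_ ?_)
      · refine totalDegree_finsetSum_le ?_
        intro i _
        refine (totalDegree_pow _ _).trans ?_
        have := hQ1 i
        rw [← he] at this
        omega
      · refine (totalDegree_mul _ _).trans ?_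
        rw [totalDegree_C, zero_add]
        refine (totalDegree_pow _ _).trans ?_
        omega
    · intro x hx
      have h1 : ∀ i, eval (pt M x) (Q i) = -(x i * eval (pt M x) (pderiv j P)) := by
        intro i
        linear_combination hQ2 i x hx
      simp only [map_sub, map_sum, map_pow, map_mul, eval_C, h1, neg_sq, mul_pow]
      rw [← Finset.sum_mul, hR x (hX hx)]
      ring
  have hG2 : ∀ l, P ∣ ∑ i, C (M (l, i)) * Q i + MvPolynomial.X l * pderiv j P := by
    intro l
    apply key
    · refine (totalDegree_add _ _).trans (max_le ?_ ?_)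
      · refine totalDegree_finsetSum_le ?_
        intro i _
        refine (totalDegree_mul _ _).trans ?_
        rw [totalDegree_C, zero_add]
        have := hQ1 i
        rw [← he] at this
        omega
      · refine (totalDegree_mul _ _).trans ?_
        rw [totalDegree_X]
        omega
    · intro x hx
      have h1 : ∀ i, eval (pt M x) (Q i) = -(x i * eval (pt M x) (pderiv j P)) := by
        intro i
        linear_combination hQ2 i x hx
      simp only [map_add, map_sum, map_mul, eval_C, h1, eval_X]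
      have h2 : pt M x l = ∑ i, M (l, i) * x i := by simp [pt]
      rw [h2, Finset.sum_mul, ← Finset.sum_add_distrib]
      apply Finset.sum_eq_zero
      intro i _
      ring
  refine ⟨j, ∑ l, (∑ i, M (l, i) ^ 2) * R, hndvd, ?_⟩
  intro z hz hzj l
  obtain ⟨A1, hA1⟩ := hG1
  obtain ⟨A2, hA2⟩ := hG2 l
  have e1 : ∑ i, eval z (Q i) ^ 2 = R * eval z (pderiv j P) ^ 2 := by
    have h := congrArg (eval z) hA1
    simp only [map_sub, map_sum, map_pow, map_mul, eval_C, hz, zero_mul] at h
    linear_combination h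
  have e2 : z l * eval z (pderiv j P) = -∑ i, M (l, i) * eval z (Q i) := by
    have h := congrArg (eval z) hA2
    simp only [map_add, map_sum, map_mul, eval_C, eval_X, hz, zero_mul] at h
    linear_combination h
  have h3 : (∑ i, M (l, i) * eval z (Q i)) ^ 2 ≤
      (∑ i, M (l, i) ^ 2) * ∑ i, eval z (Q i) ^ 2 := Finset.sum_mul_sq_le_sq_mul_sq _ _ _
  have h4 : 0 < eval z (pderiv j P) ^ 2 := by positivity
  have h5 : z l ^ 2 * eval z (pderiv j P) ^ 2 ≤
      ((∑ i, M (l, i) ^ 2) * R) * eval z (pderiv j P) ^ 2 := by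
    calc z l ^ 2 * eval z (pderiv j P) ^ 2 = (z l * eval z (pderiv j P)) ^ 2 := by ring
      _ = (∑ i, M (l, i) * eval z (Q i)) ^ 2 := by rw [e2]; ring
      _ ≤ _ := h3
      _ = _ := by rw [e1]; ring
  have h6 : z l ^ 2 ≤ (∑ i, M (l, i) ^ 2) * R := le_of_mul_le_mul_right h5 h4
  have hR0 : 0 ≤ R := by
    obtain ⟨x, hx⟩ : X.Nonempty := by
      rw [← Finset.card_pos]
      omega
    rw [← hR x (hX hx)]
    positivity
  refine h6.trans (Finset.single_le_sum (f := fun l => (∑ i, M (l, i) ^ 2) * R) (fun l _ => ?_)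
    (Finset.mem_univ l))
  positivity

end Pool.Agent.H54
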