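import Pool.Agent.H54.Lift

/-!
Plane curves with finite real zero set, and the count of points on the union of the irreducible
components that are finite or unbounded.
-/

set_option autoImplicit false

open MvPolynomial

namespace Pool.Agent.H54

/-- univariate restriction of `P` to the line through `z` in direction `j` -/
theorem exists_line (P : MvPolynomial (Fin 2) ℝ) (z : Fin 2 → ℝ) (j : Fin 2) :
    ∃ p : Polynomial ℝ, (∀ t, p.eval t = eval (fun l => z l + if l = j then t else 0) P) ∧
      (Polynomial.derivative p).eval 0 = eval z (pderiv j P) := by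
  classical
  obtain ⟨e, he⟩ : ∃ e, P.totalDegree ≤ e := ⟨_, le_rfl⟩
  obtain ⟨c, hc⟩ := exists_poly e P he
  let M : Fin 2 × Unit → ℝ := fun a => z a.1
  let x : Unit → ℝ := fun _ => 1
  have hpt : pt M x = z := by
    funext l
    simp [pt, M, x]
  refine ⟨∑ p : exf e, Polynomial.C (c p) * mon p.1 (pt (pert M j ()) x), ?_, ?_⟩
  · intro t
    rw [hc, eval_poly, Polynomial.eval_finsetSum]
    refine Finset.sum_congr rfl fun p _ => ?_
    rw [Polynomial.eval_mul, Polynomial.eval_C]
    have h3 := map_mon (Polynomial.evalRingHom t) p.1 (pt (pert M j ()) x)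
    simp only [Polynomial.coe_evalRingHom] at h3
    rw [h3]
    congr 2
    funext l
    rw [pt_pert, hpt]
    by_cases hl : l = j
    · simp [hl, x]
    · simp [hl]
  · rw [Polynomial.derivative_sum, Polynomial.eval_finsetSum]
    simp only [deriv_mon, Polynomial.derivative_C, Polynomial.eval_zero, zero_mul, zero_add,
      Polynomial.coeff_C_zero, hpt]
    conv_rhs => rw [hc, poly, map_sum, map_sum]
    refine Finset.sum_congr rfl fun p _ => ?_
    simp [x]

/-- at a real zero where some partial derivative does not vanish, the zero set is infinite -/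
theorem infinite_of_regular (P : MvPolynomial (Fin 2) ℝ) (z : Fin 2 → ℝ) (j : Fin 2)
    (hz : eval z P = 0) (hj : eval z (pderiv j P) ≠ 0) :
    {w : Fin 2 → ℝ | eval w P = 0}.Infinite := by
  classical
  obtain ⟨p, hp, hp'⟩ := exists_line P z j
  -- p = X * q with q(0) ≠ 0
  have hp0 : p.coeff 0 = 0 := by
    have h0 : (fun l => z l + if l = j then (0 : ℝ) else 0) = z := by
      funext l
      simp
    rw [Polynomial.coeff_zero_eq_eval_zero, hp, h0, hz]
  obtain ⟨q, hq⟩ := Polynomial.X_dvd_iff.mpr hp0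
  have hq0 : q.eval 0 ≠ 0 := by
    intro h
    apply hj
    rw [← hp', hq]
    simp [h]
  -- sign change of p near 0
  have hev : ∀ᶠ t in nhds (0 : ℝ), 0 < q.eval t * q.eval 0 := by
    have hcont : Continuous fun t => q.eval t * q.eval 0 := by fun_prop
    have h0 : 0 < q.eval 0 * q.eval 0 := mul_self_pos.mpr hq0
    exact hcont.continuousAt.eventually (lt_mem_nhds h0)
  obtain ⟨δ, hδ, hball⟩ := Metric.eventually_nhds_iff.mp hev
  set τ := δ / 2 with hτ
  have hτ0 : 0 < τ := by positivity
  have hq1 : 0 < q.eval τ * q.eval 0 := hball (by simp [abs_of_pos hτ0]; linarith)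
  have hq2 : 0 < q.eval (-τ) * q.eval 0 := hball (by simp [abs_of_pos hτ0]; linarith)
  have hs1 : 0 < p.eval τ * q.eval 0 := by
    rw [hq]
    simp only [Polynomial.eval_mul, Polynomial.eval_X]
    nlinarith
  have hs2 : p.eval (-τ) * q.eval 0 < 0 := by
    rw [hq]
    simp only [Polynomial.eval_mul, Polynomial.eval_X]
    nlinarith
  -- the two variable function
  obtain ⟨H, hHdef⟩ : ∃ H : ℝ → ℝ → ℝ, ∀ s t, H s t =
    eval (fun l => z l + if l = j then t else s) P * q.eval 0 := ⟨_, fun _ _ => rfl⟩
  have hH : Continuous fun a : ℝ × ℝ => H a.1 a.2 := by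
    simp only [hHdef]
    refine Continuous.mul ?_ continuous_const
    refine (MvPolynomial.continuous_eval P).comp ?_
    refine continuous_pi fun l => ?_
    refine continuous_const.add ?_
    by_cases hl : l = j
    · simpa [hl] using continuous_snd
    · simpa [hl] using continuous_fst
  have hH0 : ∀ t, H 0 t = p.eval t * q.eval 0 := fun t => by
    rw [hHdef, hp]
  have hc1 : ∀ᶠ s in nhds (0 : ℝ), 0 < H s τ := by
    have hcont : Continuous fun s => H s τ :=
      hH.comp (continuous_id.prodMk continuous_const)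
    refine hcont.continuousAt.eventually (lt_mem_nhds ?_)
    show 0 < H 0 τ
    rw [hH0]; exact hs1
  have hc2 : ∀ᶠ s in nhds (0 : ℝ), H s (-τ) < 0 := by
    have hcont : Continuous fun s => H s (-τ) :=
      hH.comp (continuous_id.prodMk continuous_const)
    refine hcont.continuousAt.eventually (gt_mem_nhds ?_)
    show H 0 (-τ) < 0
    rw [hH0]; exact hs2
  obtain ⟨η, hη, hball2⟩ := Metric.eventually_nhds_iff.mp (hc1.and hc2)
  have hroot : ∀ s, |s| < η → ∃ t, H s t = 0 := by
    intro s hs
    obtain ⟨h1, h2⟩ := hball2 (show dist s 0 < η by simpa using hs)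
    have hcont : Continuous fun t => H s t :=
      hH.comp (continuous_const.prodMk continuous_id)
    have := intermediate_value_Icc (show (-τ) ≤ τ by linarith) hcont.continuousOn
    obtain ⟨t, _, ht⟩ := this ⟨h2.le, h1.le⟩
    exact ⟨t, ht⟩
  obtain ⟨l, hl⟩ : ∃ l : Fin 2, l ≠ j := by
    fin_cases j
    · exact ⟨1, by decide⟩
    · exact ⟨0, by decide⟩
  intro hfin
  have hfin2 : ((fun w : Fin 2 → ℝ => w l - z l) '' {w : Fin 2 → ℝ | eval w P = 0}).Finite :=
    hfin.image _
  have hsub : Set.Ioo (-η) η ⊆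
      ((fun w : Fin 2 → ℝ => w l - z l) '' {w : Fin 2 → ℝ | eval w P = 0}) := by
    intro s hs
    obtain ⟨t, ht⟩ := hroot s (abs_lt.mpr hs)
    refine ⟨fun l => z l + if l = j then t else s, ?_, ?_⟩
    · rw [hHdef] at ht
      exact (mul_eq_zero.mp ht).resolve_right hq0
    · simp [hl]
  exact (Set.Ioo_infinite (show -η < η by linarith)) (hfin2.subset hsub)

variable {n : Type*} [Fintype n] [DecidableEq n]

/-- Bound for prime polynomials whose real zero set is finite or unbounded. -/
theorem card_le_of_prime (B : Finset (n → ℝ)) (M : Fin 2 × n → ℝ) (R : ℝ)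
    (hR : ∀ x ∈ B, ∑ i, x i ^ 2 = R)
    (hinj : ∀ x ∈ B, ∀ y ∈ B, pt M x = pt M y → x = y)
    (hgen : ∀ e ≤ B.card, ∀ X ⊆ B, (gram e X M).det = 0 → psi e X = 0)
    (P : MvPolynomial (Fin 2) ℝ) (hP : Prime P)
    (hgood : {z : Fin 2 → ℝ | eval z P = 0}.Finite ∨
      ¬ ∃ b : ℝ, ∀ z : Fin 2 → ℝ, eval z P = 0 → ∀ l, z l ^ 2 ≤ b)
    (X : Finset (n → ℝ)) (hX : X ⊆ B) (hPX : ∀ x ∈ X, eval (pt M x) P = 0) :
    X.card ≤ 2 * P.totalDegree ^ 2 := by
  classical
  by_contra hcon
  push Not at hcon
  have hdeg : P.totalDegree ≤ B.card := by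
    have h1 := Finset.card_le_card hX
    nlinarith [Nat.le_self_pow two_ne_zero P.totalDegree]
  obtain ⟨j, b, hndvd, hb⟩ := bounded_of_many B B.card M R hR hinj hgen P hP hdeg X hX hPX hcon
  have hfinc := finite_common P (pderiv j P) hP hndvd
  rcases hgood with hfin | hunb
  · have h1 : ∀ x ∈ X, eval (pt M x) (pderiv j P) = 0 := by
      intro x hx
      by_contra h
      exact infinite_of_regular P _ j (hPX x hx) h hfin
    have h3 := bezout P (pderiv j P) hP hndvd P.totalDegree
      ((totalDegree_pderiv_le P j).trans (Nat.sub_le _ _)) (X.image (pt M))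
      (by
        intro z hz
        obtain ⟨x, hx, rfl⟩ := Finset.mem_image.mp hz
        exact hPX x hx)
      (by
        intro z hz
        obtain ⟨x, hx, rfl⟩ := Finset.mem_image.mp hz
        exact h1 x hx)
    rw [Finset.card_image_of_injOn (fun x hx y hy h => hinj x (hX hx) y (hX hy) h)] at h3
    nlinarith
  · apply hunb
    -- bound on the finite part
    obtain ⟨b2, hb2⟩ := (hfinc.image (fun z : Fin 2 → ℝ => z 0 ^ 2 + z 1 ^ 2)).bddAbove
    refine ⟨max b b2, fun z hz l => ?_⟩
    by_cases hzj : eval z (pderiv j P) = 0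
    · refine le_trans ?_ (le_max_right _ _)
      have h1 : z 0 ^ 2 + z 1 ^ 2 ≤ b2 := hb2 ⟨z, ⟨hz, hzj⟩, rfl⟩
      fin_cases l
      · simp only [Fin.zero_eta]; nlinarith [sq_nonneg (z 1)]
      · simp only [Fin.mk_one]; nlinarith [sq_nonneg (z 0)]
    · exact (hb z hz hzj l).trans (le_max_left _ _)

/-- Bound for arbitrary nonzero polynomials: only points on components whose real zero set is
finite or unbounded are counted. -/
theorem card_le_general (B : Finset (n → ℝ)) (M : Fin 2 × n → ℝ) (R : ℝ)
    (hR : ∀ x ∈ B, ∑ i, x i ^ 2 = R)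
    (hinj : ∀ x ∈ B, ∀ y ∈ B, pt M x = pt M y → x = y)
    (hgen : ∀ e ≤ B.card, ∀ X ⊆ B, (gram e X M).det = 0 → psi e X = 0)
    (P : MvPolynomial (Fin 2) ℝ) (hP0 : P ≠ 0)
    (X : Finset (n → ℝ)) (hX : X ⊆ B) (hPX : ∀ x ∈ X, eval (pt M x) P = 0 ∧
      ∀ Q, Irreducible Q → Q ∣ P → eval (pt M x) Q = 0 →
        {z : Fin 2 → ℝ | eval z Q = 0}.Finite ∨
          ¬ ∃ b : ℝ, ∀ z : Fin 2 → ℝ, eval z Q = 0 → ∀ l, z l ^ 2 ≤ b) :
    X.card ≤ 2 * P.totalDegree ^ 2 := by
  classical
  revert X
  induction P using WfDvdMonoid.induction_on_irreducible with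
  | zero => exact absurd rfl hP0
  | unit u hu =>
    intro X hX hPX
    have : X = ∅ := by
      by_contra hne
      obtain ⟨x, hx⟩ := Finset.nonempty_iff_ne_empty.mpr hne
      have h1 := (hPX x hx).1
      have h2 : IsUnit (eval (pt M x) u) := hu.map (eval (pt M x))
      rw [h1] at h2
      exact not_isUnit_zero h2
    simp [this]
  | mul a p ha hp ih =>
    intro X hX hPX
    have hpr : Prime p := hp.prime
    have hsplit : X = (X.filter fun x => eval (pt M x) p = 0) ∪
        (X.filter fun x => eval (pt M x) a = 0) := by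
      ext x
      simp only [Finset.mem_union, Finset.mem_filter]
      constructor
      · intro hx
        have h1 := (hPX x hx).1
        rw [map_mul] at h1
        rcases mul_eq_zero.mp h1 with h | h
        · exact Or.inl ⟨hx, h⟩
        · exact Or.inr ⟨hx, h⟩
      · rintro (h | h) <;> exact h.1
    have hdeg : (p * a).totalDegree = p.totalDegree + a.totalDegree :=
      totalDegree_mul_of_isDomain hpr.ne_zero ha
    have h1 : (X.filter fun x => eval (pt M x) p = 0).card ≤ 2 * p.totalDegree ^ 2 := by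
      by_cases hemp : (X.filter fun x => eval (pt M x) p = 0) = ∅
      · simp [hemp]
      · obtain ⟨x, hx⟩ := Finset.nonempty_iff_ne_empty.mpr hemp
        obtain ⟨hxX, hxp⟩ := Finset.mem_filter.mp hx
        have hgood := (hPX x hxX).2 p hp (Dvd.intro _ rfl) hxp
        exact card_le_of_prime B M R hR hinj hgen p hpr hgood _
          ((Finset.filter_subset _ _).trans hX) (fun y hy => (Finset.mem_filter.mp hy).2)
    have h2 : (X.filter fun x => eval (pt M x) a = 0).card ≤ 2 * a.totalDegree ^ 2 := by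
      apply ih ha _ ((Finset.filter_subset _ _).trans hX)
      intro x hx
      obtain ⟨hxX, hxa⟩ := Finset.mem_filter.mp hx
      exact ⟨hxa, fun Q hQ hQa hQx => (hPX x hxX).2 Q hQ (hQa.mul_left p) hQx⟩
    rw [hdeg]
    calc X.card ≤ (X.filter fun x => eval (pt M x) p = 0).card +
          (X.filter fun x => eval (pt M x) a = 0).card := by
          conv_lhs => rw [hsplit]
          exact Finset.card_union_le _ _
      _ ≤ 2 * p.totalDegree ^ 2 + 2 * a.totalDegree ^ 2 := by omega
      _ ≤ 2 * (p.totalDegree + a.totalDegree) ^ 2 := by nlinarith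

end Pool.Agent.H54
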