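import Mathlib

/-!
Bezout's inequality for the number of common zeros of two plane polynomials over a field,
one of them prime and not dividing the other one, by a dimension count.
-/

set_option autoImplicit false

open MvPolynomial

namespace Pool.Agent.H54

/-- number of exponents of total degree at most `n` in two variables -/
theorem card_exponents (n : ℕ) :
    Nat.card {s : Fin 2 →₀ ℕ | (s.sum fun _ e => e) ≤ n} = (n + 1) * (n + 2) / 2 := by
  classical
  let f : {s : Fin 2 →₀ ℕ | (s.sum fun _ e => e) ≤ n} ≃
      (Finset.range (n + 1)).sigma (fun k => Finset.HasAntidiagonal.antidiagonal k) :=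
    { toFun := fun s => ⟨⟨s.1 0 + s.1 1, (s.1 0, s.1 1)⟩, by
        have h := s.2
        simp only [Set.mem_ofPred_eq] at h
        rw [Finsupp.sum_fintype _ _ (by simp)] at h
        simp only [Fin.sum_univ_two] at h
        simp only [Finset.mem_sigma, Finset.mem_range, Finset.HasAntidiagonal.mem_antidiagonal, and_true]
        omega⟩
      invFun := fun p => ⟨Finsupp.equivFunOnFinite.symm ![p.1.2.1, p.1.2.2], by
        have h := p.2
        simp only [Finset.mem_sigma, Finset.mem_range, Finset.HasAntidiagonal.mem_antidiagonal] at h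
        simp only [Set.mem_ofPred_eq]
        rw [Finsupp.sum_fintype _ _ (by simp)]
        simp only [Fin.sum_univ_two, Finsupp.equivFunOnFinite_symm_apply_apply,
          Matrix.cons_val_zero, Matrix.cons_val_one]
        omega⟩
      left_inv := by
        intro s
        apply Subtype.ext
        ext i
        fin_cases i <;> simp
      right_inv := by
        rintro ⟨⟨k, ⟨a, b⟩⟩, h⟩
        simp only [Finset.mem_sigma, Finset.mem_range, Finset.HasAntidiagonal.mem_antidiagonal] at h
        obtain ⟨h1, h2⟩ := h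
        subst h2
        simp }
  rw [Nat.card_congr f, Nat.card_eq_fintype_card, Fintype.card_coe, Finset.card_sigma]
  simp only [Finset.Nat.card_antidiagonal]
  have : ∀ n : ℕ, (∑ k ∈ Finset.range (n + 1), (k + 1)) * 2 = (n + 1) * (n + 2) := by
    intro n
    induction n with
    | zero => simp
    | succ n ih => rw [Finset.sum_range_succ, add_mul, ih]; ring
  have h := this n
  omega

theorem finrank_restrictTotalDegree (K : Type*) [Field K] (n : ℕ) :
    Module.finrank K (restrictTotalDegree (Fin 2) K n) = (n + 1) * (n + 2) / 2 := by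
  unfold restrictTotalDegree
  rw [Module.finrank_eq_nat_card_basis (basisRestrictSupport K _)]
  exact card_exponents n

section Bezout

variable {K : Type*} [Field K]

/-- Lagrange interpolation in the plane, without a sharp degree bound. -/
theorem exists_interp (Z : Finset (Fin 2 → K)) (c : (Fin 2 → K) → K) :
    ∃ F : MvPolynomial (Fin 2) K, F.totalDegree ≤ Z.card ∧ ∀ z ∈ Z, eval z F = c z := by
  classical
  have h1 : ∀ z w : Fin 2 → K, ∃ L : MvPolynomial (Fin 2) K, L.totalDegree ≤ 1 ∧
      (z ≠ w → eval z L = 1 ∧ eval w L = 0) := by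
    intro z w
    by_cases hzw : z = w
    · exact ⟨0, by simp, fun h => absurd hzw h⟩
    · obtain ⟨j, hj⟩ : ∃ j, z j ≠ w j := by
        by_contra hcon
        push Not at hcon
        exact hzw (funext hcon)
      refine ⟨(X j - C (w j)) * C ((z j - w j)⁻¹), ?_, fun _ => ⟨?_, ?_⟩⟩
      · refine (totalDegree_mul _ _).trans ?_
        rw [totalDegree_C, add_zero]
        refine (totalDegree_sub _ _).trans ?_
        simp
      · simp [mul_inv_cancel₀ (sub_ne_zero.mpr hj)]
      · simp
  choose L hL1 hL2 using h1
  refine ⟨∑ z ∈ Z, C (c z) * ∏ w ∈ Z.erase z, L z w, ?_, ?_⟩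
  · refine totalDegree_finsetSum_le ?_
    intro z hz
    refine (totalDegree_mul _ _).trans ?_
    rw [totalDegree_C, zero_add]
    refine (totalDegree_finsetProd _ _).trans ?_
    refine (Finset.sum_le_card_nsmul _ _ 1 (fun w _ => hL1 z w)).trans ?_
    simp only [smul_eq_mul, mul_one]
    exact Finset.card_le_card (Finset.erase_subset _ _)
  · intro z hz
    rw [map_sum, Finset.sum_eq_single z]
    · rw [map_mul, eval_C, map_prod, Finset.prod_eq_one, mul_one]
      intro w hw
      exact (hL2 z w (Finset.ne_of_mem_erase hw).symm).1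
    · intro w hw hwz
      rw [map_mul, map_prod, Finset.prod_eq_zero (Finset.mem_erase.mpr ⟨hwz.symm, hz⟩)
        (hL2 w z hwz).2, mul_zero]
    · intro h
      exact absurd hz h

/-- Bezout's inequality. -/
theorem bezout (P G : MvPolynomial (Fin 2) K) (hP : Prime P) (hG : ¬ P ∣ G) (g : ℕ)
    (hg : G.totalDegree ≤ g) (Z : Finset (Fin 2 → K)) (h1 : ∀ z ∈ Z, eval z P = 0)
    (h2 : ∀ z ∈ Z, eval z G = 0) : Z.card ≤ P.totalDegree * g := by
  classical
  set e := P.totalDegree with he
  set N := Z.card with hN
  have hP0 : P ≠ 0 := hP.ne_zero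
  let W : ℕ → Submodule K (MvPolynomial (Fin 2) K) := fun n => restrictTotalDegree (Fin 2) K n
  have hW : ∀ n F, F ∈ W n ↔ F.totalDegree ≤ n := fun n F => mem_restrictTotalDegree (Fin 2) n F
  have hfr : ∀ n, Module.finrank K (W n) = (n + 1) * (n + 2) / 2 :=
    fun n => finrank_restrictTotalDegree K n
  have hfin : ∀ n, Module.Finite K (W n) := fun n =>
    inferInstanceAs (Module.Finite K (restrictTotalDegree (Fin 2) K n))
  -- evaluation map
  let E : MvPolynomial (Fin 2) K →ₗ[K] (Z → K) :=
    LinearMap.pi fun z => (aeval (z : Fin 2 → K)).toLinearMap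
  have hE : ∀ F (z : Z), E F z = eval (z : Fin 2 → K) F := fun F z => by
    simp [E, aeval_eq_eval]
  let E' := E.domRestrict (W (e + g + N))
  have hE's : Function.Surjective E' := by
    intro c
    obtain ⟨F, hF1, hF2⟩ := exists_interp Z (fun z => if hz : z ∈ Z then c ⟨z, hz⟩ else 0)
    refine ⟨⟨F, (hW _ _).mpr (hF1.trans (by omega))⟩, ?_⟩
    funext z
    show E F z = c z
    rw [hE, hF2 _ z.2, dif_pos z.2]
  have hd1 : Module.finrank K (LinearMap.ker E') + N = Module.finrank K (W (e + g + N)) := by
    have h := LinearMap.finrank_range_add_finrank_ker E'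
    rw [LinearMap.range_eq_top.mpr hE's, finrank_top, Module.finrank_fintype_fun_eq_card,
      Fintype.card_coe] at h
    omega
  -- the syzygy map
  let Φ : (W (g + N) × W (e + N)) →ₗ[K] MvPolynomial (Fin 2) K :=
    ((LinearMap.mulRight K P).comp (W (g + N)).subtype).coprod
      ((LinearMap.mulRight K G).comp (W (e + N)).subtype)
  have hΦ : ∀ U V, Φ (U, V) = (U : MvPolynomial (Fin 2) K) * P + (V : MvPolynomial (Fin 2) K) * G :=
    fun U V => by simp [Φ]
  let Ψ : MvPolynomial (Fin 2) K →ₗ[K] (MvPolynomial (Fin 2) K × MvPolynomial (Fin 2) K) :=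
    (LinearMap.mulRight K G).prod (-(LinearMap.mulRight K P))
  have hΨ : ∀ T, Ψ T = (T * G, -(T * P)) := fun T => by simp [Ψ]
  let I : (W (g + N) × W (e + N)) →ₗ[K] (MvPolynomial (Fin 2) K × MvPolynomial (Fin 2) K) :=
    (W (g + N)).subtype.prodMap (W (e + N)).subtype
  have hI : Function.Injective I := by
    rintro ⟨U, V⟩ ⟨U', V'⟩ h
    simp only [I, LinearMap.prodMap_apply, Submodule.subtype_apply, Prod.mk.injEq] at h
    exact Prod.ext (Subtype.ext h.1) (Subtype.ext h.2)
  have hker : (LinearMap.ker Φ).map I ≤ (W N).map Ψ := by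
    rintro _ ⟨⟨U, V⟩, hUV, rfl⟩
    have hUV' : (U : MvPolynomial (Fin 2) K) * P + (V : MvPolynomial (Fin 2) K) * G = 0 := by
      rw [← hΦ]; exact hUV
    have hdvd : P ∣ (V : MvPolynomial (Fin 2) K) * G := by
      refine ⟨-(U : MvPolynomial (Fin 2) K), ?_⟩
      linear_combination hUV'
    obtain ⟨T, hT⟩ := (hP.dvd_or_dvd hdvd).resolve_right hG
    refine ⟨-T, ?_, ?_⟩
    · show -T ∈ W N
      rw [hW, totalDegree_neg]
      by_cases hT0 : T = 0
      · simp [hT0]
      · have h3 := (hW _ _).mp V.2
        rw [hT, totalDegree_mul_of_isDomain hP0 hT0] at h3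
        omega
    · rw [hΨ]
      simp only [I, LinearMap.prodMap_apply, Submodule.subtype_apply, Prod.mk.injEq]
      constructor
      · apply mul_right_cancel₀ hP0
        rw [hT] at hUV'
        linear_combination -hUV'
      · rw [hT]; ring
  have hd2 : Module.finrank K (LinearMap.ker Φ) ≤ Module.finrank K (W N) := by
    rw [(Submodule.equivMapOfInjective I hI (LinearMap.ker Φ)).finrank_eq]
    exact (Submodule.finrank_mono hker).trans (Submodule.finrank_map_le _ _)
  have hd3 : Module.finrank K (LinearMap.range Φ) + Module.finrank K (LinearMap.ker Φ) =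
      Module.finrank K (W (g + N)) + Module.finrank K (W (e + N)) := by
    rw [LinearMap.finrank_range_add_finrank_ker, Module.finrank_prod]
  have hd4 : Module.finrank K (LinearMap.range Φ) ≤ Module.finrank K (LinearMap.ker E') := by
    rw [(Submodule.equivMapOfInjective (W (e + g + N)).subtype
      (Submodule.injective_subtype _) (LinearMap.ker E')).finrank_eq]
    apply Submodule.finrank_mono
    rintro _ ⟨⟨U, V⟩, rfl⟩
    rw [hΦ]
    have hm : (U : MvPolynomial (Fin 2) K) * P + (V : MvPolynomial (Fin 2) K) * G ∈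
        W (e + g + N) := by
      rw [hW]
      have h3 := (hW _ _).mp U.2
      have h4 := (hW _ _).mp V.2
      refine (totalDegree_add _ _).trans (max_le ?_ ?_)
      · exact (totalDegree_mul _ _).trans (by omega)
      · exact (totalDegree_mul _ _).trans (by omega)
    refine ⟨⟨_, hm⟩, ?_, rfl⟩
    show E _ = 0
    funext z
    rw [hE]
    simp [h1 _ z.2, h2 _ z.2]
  have hf : ∀ x : ℕ, (x + 1) * (x + 2) / 2 * 2 = (x + 1) * (x + 2) := by
    intro x
    apply Nat.div_mul_cancel
    have := Nat.even_mul_succ_self (x + 1)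
    exact this.two_dvd
  rw [hfr] at hd1 hd2
  rw [hfr, hfr] at hd3
  have e1 := hf (e + g + N)
  have e2 := hf (g + N)
  have e3 := hf (e + N)
  have e4 := hf N
  nlinarith [hd1, hd2, hd3, hd4, e1, e2, e3, e4]

end Bezout

end Pool.Agent.H54
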