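import Pool.Agent.H54.Bezout

/-!
Gram matrices of plane monomials at linear images of points, and generic linear images.
-/

set_option autoImplicit false

open MvPolynomial

namespace Pool.Agent.H54

/-- exponents `(a, b)` with `a + b ≤ e` -/
def exf (e : ℕ) : Finset (ℕ × ℕ) :=
  (Finset.range (e + 1) ×ˢ Finset.range (e + 1)).filter (fun p => p.1 + p.2 ≤ e)

theorem mem_exf (e : ℕ) (p : ℕ × ℕ) : p ∈ exf e ↔ p.1 + p.2 ≤ e := by
  simp only [exf, Finset.mem_filter, Finset.mem_product, Finset.mem_range]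
  omega

/-- value of the monomial with exponent `p` at the point `u` -/
def mon {S : Type*} [CommSemiring S] (p : ℕ × ℕ) (u : Fin 2 → S) : S := u 0 ^ p.1 * u 1 ^ p.2

theorem map_mon {S T : Type*} [CommSemiring S] [CommSemiring T] (f : S →+* T) (p : ℕ × ℕ)
    (u : Fin 2 → S) : f (mon p u) = mon p (fun l => f (u l)) := by
  simp [mon]

/-- the plane polynomial with given coefficients -/
noncomputable def poly {S : Type*} [CommSemiring S] (e : ℕ) (c : exf e → S) :
    MvPolynomial (Fin 2) S := ∑ p : exf e, C (c p) * mon p.1 X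

theorem eval_poly {S : Type*} [CommSemiring S] (e : ℕ) (c : exf e → S) (u : Fin 2 → S) :
    eval u (poly e c) = ∑ p : exf e, c p * mon p.1 u := by
  simp [poly, mon]

theorem mon_X_eq {S : Type*} [CommSemiring S] (a : S) (p : ℕ × ℕ) :
    C a * mon p (X : Fin 2 → MvPolynomial (Fin 2) S) =
      monomial (Finsupp.single 0 p.1 + Finsupp.single 1 p.2) a := by
  rw [mon, X_pow_eq_monomial, X_pow_eq_monomial, monomial_mul, C_mul_monomial]
  simp

theorem coeff_poly {S : Type*} [CommSemiring S] (e : ℕ) (c : exf e → S) (p : exf e) :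
    coeff (Finsupp.single 0 p.1.1 + Finsupp.single 1 p.1.2) (poly e c) = c p := by
  classical
  rw [poly, coeff_sum, Finset.sum_eq_single p]
  · rw [mon_X_eq, coeff_monomial, if_pos rfl]
  · intro q _ hqp
    rw [mon_X_eq, coeff_monomial, if_neg]
    intro h
    apply hqp
    have h0 := DFunLike.congr_fun h 0
    have h1 := DFunLike.congr_fun h 1
    simp at h0 h1
    exact Subtype.ext (Prod.ext h0 h1)
  · intro h
    exact absurd (Finset.mem_univ _) h

theorem poly_ne_zero {S : Type*} [CommSemiring S] (e : ℕ) (c : exf e → S) (hc : c ≠ 0) :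
    poly e c ≠ 0 := by
  intro h
  apply hc
  funext p
  rw [← coeff_poly e c p, h, coeff_zero]
  rfl

theorem totalDegree_poly {S : Type*} [CommSemiring S] (e : ℕ) (c : exf e → S) :
    (poly e c).totalDegree ≤ e := by
  refine totalDegree_finsetSum_le ?_
  intro p _
  rw [mon_X_eq]
  refine (totalDegree_monomial_le _ _).trans ?_
  have h := (mem_exf e p.1).mp p.2
  rw [Finsupp.sum_fintype _ _ (by simp)]
  simpa using h

theorem exists_poly {S : Type*} [CommSemiring S] (e : ℕ) (F : MvPolynomial (Fin 2) S)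
    (hF : F.totalDegree ≤ e) : ∃ c : exf e → S, F = poly e c := by
  classical
  refine ⟨fun p => coeff (Finsupp.single 0 p.1.1 + Finsupp.single 1 p.1.2) F, ?_⟩
  ext m
  by_cases hm : m 0 + m 1 ≤ e
  · have h := coeff_poly e
      (fun p : exf e => coeff (Finsupp.single 0 p.1.1 + Finsupp.single 1 p.1.2) F)
      ⟨(m 0, m 1), (mem_exf e _).mpr hm⟩
    have hm' : (Finsupp.single 0 (m 0) + Finsupp.single 1 (m 1) : Fin 2 →₀ ℕ) = m := by
      ext i
      fin_cases i <;> simp
    simp only [hm'] at h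
    exact h.symm
  · have h1 : coeff m F = 0 := by
      apply coeff_eq_zero_of_totalDegree_lt
      rw [show (∑ i ∈ m.support, m i) = m.sum fun _ e => e from rfl,
        Finsupp.sum_fintype _ _ (by simp)]
      simp only [Fin.sum_univ_two]
      omega
    have h2 : coeff m (poly e
        (fun p : exf e => coeff (Finsupp.single 0 p.1.1 + Finsupp.single 1 p.1.2) F)) = 0 := by
      apply coeff_eq_zero_of_totalDegree_lt
      refine lt_of_le_of_lt (totalDegree_poly e _) ?_
      rw [show (∑ i ∈ m.support, m i) = m.sum fun _ e => e from rfl,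
        Finsupp.sum_fintype _ _ (by simp)]
      simp only [Fin.sum_univ_two]
      omega
    rw [h1, h2]

variable {n : Type*} [Fintype n]

/-- linear image of the vector `x` under the `2 × n` matrix `M` -/
def pt {S : Type*} [CommRing S] [Algebra ℝ S] (M : Fin 2 × n → S) (x : n → ℝ) : Fin 2 → S :=
  fun l => ∑ i, M (l, i) * algebraMap ℝ S (x i)

/-- Gram matrix of the monomials of degree at most `e` on the image of the point set `X` -/
def gram {S : Type*} [CommRing S] [Algebra ℝ S] (e : ℕ) (X : Finset (n → ℝ))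
    (M : Fin 2 × n → S) : Matrix (exf e) (exf e) S :=
  fun p q => ∑ x ∈ X, mon p.1 (pt M x) * mon q.1 (pt M x)

theorem map_pt {S T : Type*} [CommRing S] [Algebra ℝ S] [CommRing T] [Algebra ℝ T]
    (f : S →ₐ[ℝ] T) (M : Fin 2 × n → S) (x : n → ℝ) (l : Fin 2) :
    f (pt M x l) = pt (fun a => f (M a)) x l := by
  simp [pt]

theorem map_det_gram {S T : Type*} [CommRing S] [Algebra ℝ S] [CommRing T] [Algebra ℝ T]
    (f : S →ₐ[ℝ] T) (e : ℕ) (X : Finset (n → ℝ)) (M : Fin 2 × n → S) :
    f (gram e X M).det = (gram e X (fun a => f (M a))).det := by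
  rw [AlgHom.map_det]
  congr 1
  ext p q
  simp only [AlgHom.mapMatrix_apply, Matrix.map_apply, gram, map_sum, map_mul]
  refine Finset.sum_congr rfl fun x _ => ?_
  have h : ∀ p : exf e, f (mon p.1 (pt M x)) = mon p.1 (pt (fun a => f (M a)) x) := by
    intro p
    have := map_mon (f : S →+* T) p.1 (pt M x)
    rw [show f (mon p.1 (pt M x)) = (f : S →+* T) (mon p.1 (pt M x)) from rfl, this]
    congr 1
    funext l
    exact map_pt f M x l
  rw [h, h]

theorem gram_mulVec_dot {S : Type*} [CommRing S] [Algebra ℝ S] (e : ℕ) (X : Finset (n → ℝ))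
    (M : Fin 2 × n → S) (c : exf e → S) :
    ∑ p, c p * ((gram e X M).mulVec c) p = ∑ x ∈ X, (∑ p, c p * mon p.1 (pt M x)) ^ 2 := by
  have h1 : ∀ p, ((gram e X M).mulVec c) p =
      ∑ x ∈ X, mon p.1 (pt M x) * ∑ q, c q * mon q.1 (pt M x) := by
    intro p
    simp only [Matrix.mulVec, dotProduct, gram, Finset.sum_mul, Finset.mul_sum]
    rw [Finset.sum_comm]
    refine Finset.sum_congr rfl fun x _ => Finset.sum_congr rfl fun q _ => by ring
  simp only [h1, Finset.mul_sum]
  rw [Finset.sum_comm]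
  refine Finset.sum_congr rfl fun x _ => ?_
  rw [sq, Finset.sum_mul]
  refine Finset.sum_congr rfl fun p _ => ?_
  rw [Finset.mul_sum]
  refine Finset.sum_congr rfl fun q _ => by ring

theorem exists_of_det_eq_zero {S : Type*} [CommRing S] [IsDomain S] [Algebra ℝ S]
    (hS : ∀ (s : Finset (n → ℝ)) (f : (n → ℝ) → S), ∑ i ∈ s, f i ^ 2 = 0 → ∀ i ∈ s, f i = 0)
    (e : ℕ) (X : Finset (n → ℝ)) (M : Fin 2 × n → S) (h : (gram e X M).det = 0) :
    ∃ c : exf e → S, c ≠ 0 ∧ ∀ x ∈ X, ∑ p, c p * mon p.1 (pt M x) = 0 := by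
  obtain ⟨c, hc, hc2⟩ := Matrix.exists_mulVec_eq_zero_iff.mpr h
  refine ⟨c, hc, ?_⟩
  apply hS X (fun x => ∑ p, c p * mon p.1 (pt M x))
  rw [← gram_mulVec_dot, hc2]
  simp

theorem det_eq_zero_of_exists {S : Type*} [CommRing S] [IsDomain S] [Algebra ℝ S]
    (e : ℕ) (X : Finset (n → ℝ)) (M : Fin 2 × n → S)
    (h : ∃ c : exf e → S, c ≠ 0 ∧ ∀ x ∈ X, ∑ p, c p * mon p.1 (pt M x) = 0) :
    (gram e X M).det = 0 := by
  obtain ⟨c, hc, hc2⟩ := h
  apply Matrix.exists_mulVec_eq_zero_iff.mp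
  refine ⟨c, hc, ?_⟩
  funext p
  simp only [Matrix.mulVec, dotProduct, gram, Finset.sum_mul, Pi.zero_apply]
  rw [Finset.sum_comm]
  apply Finset.sum_eq_zero
  intro x hx
  have h1 : ∑ q : exf e, mon p.1 (pt M x) * mon q.1 (pt M x) * c q =
      mon p.1 (pt M x) * ∑ q : exf e, c q * mon q.1 (pt M x) := by
    rw [Finset.mul_sum]
    exact Finset.sum_congr rfl fun q _ => by ring
  rw [h1, hc2 x hx, mul_zero]

theorem sqZero_real {α : Type*} (s : Finset α) (f : α → ℝ) (h : ∑ i ∈ s, f i ^ 2 = 0) :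
    ∀ i ∈ s, f i = 0 := by
  intro i hi
  have := (Finset.sum_eq_zero_iff_of_nonneg (fun i _ => sq_nonneg (f i))).mp h i hi
  exact pow_eq_zero_iff two_ne_zero |>.mp this

theorem sqZero_poly {α : Type*} (s : Finset α) (f : α → Polynomial ℝ)
    (h : ∑ i ∈ s, f i ^ 2 = 0) : ∀ i ∈ s, f i = 0 := by
  intro i hi
  apply Polynomial.funext
  intro t
  rw [Polynomial.eval_zero]
  apply sqZero_real s (fun i => (f i).eval t) _ i hi
  have := congrArg (Polynomial.eval t) h
  simpa [Polynomial.eval_finsetSum] using this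

/-- the generic matrix determinant -/
noncomputable def psi (e : ℕ) (X : Finset (n → ℝ)) : MvPolynomial (Fin 2 × n) ℝ :=
  (gram e X (fun a => (MvPolynomial.X a : MvPolynomial (Fin 2 × n) ℝ))).det

theorem aeval_psi {S : Type*} [CommRing S] [Algebra ℝ S] (e : ℕ) (X : Finset (n → ℝ))
    (M : Fin 2 × n → S) : aeval M (psi e X) = (gram e X M).det := by
  rw [psi, map_det_gram]
  congr 2
  funext a
  simp

theorem exists_eval_ne_zero {σ : Type*} (𝓕 : Finset (MvPolynomial σ ℝ)) (h : ∀ f ∈ 𝓕, f ≠ 0) :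
    ∃ M : σ → ℝ, ∀ f ∈ 𝓕, eval M f ≠ 0 := by
  by_contra hcon
  push Not at hcon
  have h1 : ∏ f ∈ 𝓕, f = 0 := by
    apply MvPolynomial.funext
    intro M
    obtain ⟨f, hf, hf2⟩ := hcon M
    rw [map_prod, map_zero]
    exact Finset.prod_eq_zero hf hf2
  rw [Finset.prod_eq_zero_iff] at h1
  obtain ⟨f, hf, hf2⟩ := h1
  exact h f hf hf2

/-- existence of a generic linear map to the plane for a finite set `B` of vectors and degrees
at most `E` -/
theorem exists_generic [DecidableEq n] (B : Finset (n → ℝ)) (E : ℕ) :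
    ∃ M : Fin 2 × n → ℝ, (∀ x ∈ B, ∀ y ∈ B, pt M x = pt M y → x = y) ∧
      ∀ e ≤ E, ∀ X ⊆ B, (gram e X M).det = 0 → psi e X = 0 := by
  classical
  let lin : (n → ℝ) → MvPolynomial (Fin 2 × n) ℝ := fun x => ∑ i, C (x i) * MvPolynomial.X (0, i)
  have hlin : ∀ x, x ≠ 0 → lin x ≠ 0 := by
    intro x hx h
    apply hx
    funext i
    have := congrArg (eval (fun a : Fin 2 × n => if a = (0, i) then (1 : ℝ) else 0)) h
    simp only [lin, map_sum, map_mul, eval_C, eval_X, map_zero, Prod.mk.injEq, true_and] at this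
    rw [Finset.sum_eq_single i] at this
    · simpa using this
    · intro b _ hb
      simp [hb]
    · simp
  let 𝓕 : Finset (MvPolynomial (Fin 2 × n) ℝ) :=
    (((Finset.range (E + 1)) ×ˢ B.powerset).image (fun q => psi q.1 q.2) ∪
      (B ×ˢ B).image (fun q => lin (q.1 - q.2))).filter (fun f => f ≠ 0)
  obtain ⟨M, hM⟩ := exists_eval_ne_zero 𝓕 (fun f hf => (Finset.mem_filter.mp hf).2)
  refine ⟨M, ?_, ?_⟩
  · intro x hx y hy hxy
    by_contra hne
    have h1 : lin (x - y) ∈ 𝓕 := by
      refine Finset.mem_filter.mpr ⟨Finset.mem_union_right _ (Finset.mem_image.mpr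
        ⟨(x, y), Finset.mem_product.mpr ⟨hx, hy⟩, rfl⟩), hlin _ (sub_ne_zero.mpr hne)⟩
    apply hM _ h1
    have h2 := congrFun hxy 0
    simp only [pt, Algebra.algebraMap_self, RingHom.id_apply] at h2
    simp only [lin, map_sum, map_mul, eval_C, eval_X, Pi.sub_apply, sub_mul,
      Finset.sum_sub_distrib]
    rw [sub_eq_zero]
    simpa [mul_comm] using h2
  · intro e he X hX h
    by_contra hne
    have h1 : psi e X ∈ 𝓕 := by
      refine Finset.mem_filter.mpr ⟨Finset.mem_union_left _ (Finset.mem_image.mpr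
        ⟨(e, X), Finset.mem_product.mpr ⟨by simpa using Nat.lt_succ_of_le he,
          Finset.mem_powerset.mpr hX⟩, rfl⟩), hne⟩
    apply hM _ h1
    rw [← h, ← aeval_psi, aeval_eq_eval]

end Pool.Agent.H54
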