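import Pool.Agent.H54.ZeroSet

/-!
All curves: points of a box on the preimage of a plane curve of degree `d` span a space of
dimension less than `(d + 1) (d + 2) / 2`, so there are few of them.
-/

set_option autoImplicit false

open MvPolynomial

namespace Pool.Agent.H54

/-- A separating family of functionals contains at most `dim V` members separating `V`. -/
theorem exists_test {E : Type*} [AddCommGroup E] [Module ℝ E] {ι : Type*}
    (φ : ι → E →ₗ[ℝ] ℝ) (hφ : ∀ v, (∀ z, φ z v = 0) → v = 0) (N : ℕ) :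
    ∀ (V : Submodule ℝ E) (_ : Module.Finite ℝ V), Module.finrank ℝ V ≤ N →
      ∃ J : Finset ι, J.card ≤ N ∧ ∀ v ∈ V, (∀ z ∈ J, φ z v = 0) → v = 0 := by
  classical
  induction N with
  | zero =>
    intro V _ hV
    have h0 : V = ⊥ := Submodule.finrank_eq_zero.mp (Nat.le_zero.mp hV)
    refine ⟨∅, by simp, fun v hv _ => ?_⟩
    rw [h0] at hv
    exact (Submodule.mem_bot ℝ).mp hv
  | succ N ih =>
    intro V hfin hV
    by_cases h0 : V = ⊥
    · refine ⟨∅, by simp, fun v hv _ => ?_⟩
      rw [h0] at hv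
      exact (Submodule.mem_bot ℝ).mp hv
    · obtain ⟨v, hvV, hv0⟩ := Submodule.exists_mem_ne_zero_of_ne_bot h0
      obtain ⟨z, hz⟩ : ∃ z, φ z v ≠ 0 := by
        by_contra hcon
        push Not at hcon
        exact hv0 (hφ v hcon)
      have hlt : V ⊓ LinearMap.ker (φ z) < V := by
        refine lt_of_le_of_ne inf_le_left ?_
        intro h
        apply hz
        have : v ∈ V ⊓ LinearMap.ker (φ z) := by rw [h]; exact hvV
        exact this.2
      have hfin' : Module.Finite ℝ (V ⊓ LinearMap.ker (φ z) : Submodule ℝ E) :=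
        Submodule.finiteDimensional_of_le inf_le_left
      have hfr := Submodule.finrank_lt_finrank_of_lt hlt
      obtain ⟨J, hJ1, hJ2⟩ := ih _ hfin' (by omega)
      refine ⟨insert z J, (Finset.card_insert_le _ _).trans (by omega), fun w hw hwJ => ?_⟩
      apply hJ2 w ⟨hw, hwJ z (Finset.mem_insert_self _ _)⟩
      intro u hu
      exact hwJ u (Finset.mem_insert_of_mem hu)

variable {n : Type*} [Fintype n] [DecidableEq n]

omit [Fintype n] [DecidableEq n] in
theorem card_le_pow [Finite n] (X : Finset (n → ℝ)) (S : Finset ℝ) (hS0 : 1 ≤ S.card)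
    (hS : ∀ x ∈ X, ∀ i, x i ∈ S) (r : ℕ)
    (hr : Module.finrank ℝ (Submodule.span ℝ (X : Set (n → ℝ))) ≤ r) : X.card ≤ S.card ^ r := by
  classical
  obtain ⟨J, hJ1, hJ2⟩ := exists_test (fun i : n => (LinearMap.proj i : (n → ℝ) →ₗ[ℝ] ℝ))
    (fun v hv => _root_.funext hv) r (Submodule.span ℝ (X : Set (n → ℝ))) inferInstance hr
  have h1 : X.card ≤ (Fintype.piFinset fun _ : J => S).card := by
    apply Finset.card_le_card_of_injOn (fun x => fun i : J => x i)
    · intro x hx
      simp only [Fintype.coe_piFinset, Set.mem_pi, Finset.mem_coe]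
      intro i _
      exact hS x hx i
    · intro x hx y hy hxy
      have h := hJ2 (x - y) (Submodule.sub_mem _ (Submodule.subset_span hx)
        (Submodule.subset_span hy)) (by
          intro i hi
          have := congrFun hxy ⟨i, hi⟩
          simp only at this
          simp [this])
      exact sub_eq_zero.mp h
  rw [Fintype.card_piFinset, Finset.prod_const, Finset.card_univ, Fintype.card_coe] at h1
  exact h1.trans (Nat.pow_le_pow_right hS0 hJ1)

theorem finrank_span_lt (B : Finset (n → ℝ)) (E : ℕ) (M : Fin 2 × n → ℝ)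
    (hgen : ∀ e ≤ E, ∀ X ⊆ B, (gram e X M).det = 0 → psi e X = 0)
    (d : ℕ) (hd : d ≤ E) (P : MvPolynomial (Fin 2) ℝ) (hP : P ≠ 0) (hPd : P.totalDegree ≤ d)
    (X : Finset (n → ℝ)) (hX : X ⊆ B) (hPX : ∀ x ∈ X, eval (pt M x) P = 0) :
    Module.finrank ℝ (Submodule.span ℝ (X : Set (n → ℝ))) < (d + 1) * (d + 2) / 2 := by
  classical
  by_contra hcon
  push Not at hcon
  obtain ⟨Z, hZ1, hZ2⟩ := exists_test
    (fun z : Fin 2 → ℝ => (aeval z : MvPolynomial (Fin 2) ℝ →ₐ[ℝ] ℝ).toLinearMap)
    (fun v hv => by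
      apply MvPolynomial.funext
      intro z
      have := hv z
      simpa [aeval_eq_eval] using this) ((d + 1) * (d + 2) / 2)
    (restrictTotalDegree (Fin 2) ℝ d) inferInstance (finrank_restrictTotalDegree ℝ d).le
  obtain ⟨b, hbX, hbs, hbli⟩ := exists_linearIndependent ℝ (X : Set (n → ℝ))
  have hbfin : b.Finite := (Finset.finite_toSet X).subset hbX
  have hbcard : Z.card ≤ hbfin.toFinset.card := by
    have h1 : Module.finrank ℝ (Submodule.span ℝ b) = hbfin.toFinset.card := by
      have := hbfin.fintype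
      rw [finrank_span_set_eq_card hbli]
      congr 1
      ext; simp
    rw [← h1, hbs]
    exact hZ1.trans hcon
  obtain ⟨g⟩ : Nonempty (Z ↪ hbfin.toFinset) := by
    apply Function.Embedding.nonempty_of_card_le
    simpa using hbcard
  let y : Z → (n → ℝ) := fun z => (g z : n → ℝ)
  have hyb : ∀ z, y z ∈ b := fun z => hbfin.mem_toFinset.mp (g z).2
  have hyli : LinearIndependent ℝ y := by
    have : y = (fun w : b => (w : n → ℝ)) ∘ (fun z => ⟨y z, hyb z⟩) := rfl
    rw [this]
    apply hbli.comp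
    intro z z' h
    have h1 : y z = y z' := by simpa using h
    exact g.injective (Subtype.ext h1)
  have hfun : ∀ l : Fin 2, ∃ f : (n → ℝ) →ₗ[ℝ] ℝ, ∀ z : Z, f (y z) = (z : Fin 2 → ℝ) l := by
    intro l
    let bs := Module.Basis.span hyli
    obtain ⟨f, hf⟩ := LinearMap.exists_extend
      (bs.constr ℝ (fun z : Z => (z : Fin 2 → ℝ) l))
    refine ⟨f, fun z => ?_⟩
    have h1 := LinearMap.congr_fun hf (bs z)
    rw [Module.Basis.constr_basis] at h1
    have h2 : ((bs z : Submodule.span ℝ (Set.range y)) : n → ℝ) = y z :=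
      congrArg Subtype.val (Module.Basis.span_apply hyli z)
    rw [← h1, ← h2]
    rfl
  choose f hf using hfun
  let M' : Fin 2 × n → ℝ := fun a => f a.1 (Pi.single a.2 1)
  have hM' : ∀ x, pt M' x = fun l => f l x := by
    intro x
    funext l
    simp only [pt, M', Algebra.algebraMap_self, RingHom.id_apply]
    conv_rhs => rw [← Finset.univ_sum_single x]
    rw [map_sum]
    refine Finset.sum_congr rfl fun i _ => ?_
    have : (Pi.single i (x i) : n → ℝ) = x i • Pi.single i 1 := by
      rw [← Pi.single_smul]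
      simp
    rw [this, map_smul, smul_eq_mul, mul_comm]
  obtain ⟨c0, hc0⟩ := exists_poly d P hPd
  have hdet : (gram d X M).det = 0 := by
    apply det_eq_zero_of_exists
    refine ⟨c0, ?_, fun x hx => ?_⟩
    · rintro rfl
      apply hP
      rw [hc0]
      simp [poly]
    · rw [← eval_poly, ← hc0]
      exact hPX x hx
  have hdet2 : (gram d X M').det = 0 := by
    rw [← aeval_psi, hgen d hd X hX hdet, map_zero]
  obtain ⟨c, hc, hc2⟩ := exists_of_det_eq_zero (fun s f h => sqZero_real s f h) d X M' hdet2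
  apply poly_ne_zero d c hc
  apply hZ2 _ ((mem_restrictTotalDegree _ _ _).mpr (totalDegree_poly d c))
  intro z hz
  have h1 := hc2 (y ⟨z, hz⟩) (hbX (hyb ⟨z, hz⟩))
  rw [← eval_poly, hM'] at h1
  have h2 : (fun l => f l (y ⟨z, hz⟩)) = z := by
    funext l
    exact hf l ⟨z, hz⟩
  rw [h2] at h1
  simpa [aeval_eq_eval] using h1

end Pool.Agent.H54
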